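import Mathlib

/-!
Real parts of polynomials on the sphere of `ℂ²` in `L¹` (MP_6b57c7_an): definitions.
-/

set_option autoImplicit false

open MeasureTheory MvPolynomial

namespace Pool.Agent.TH44.RP

/-- the closed unit ball of `ℂ²` -/
def B2 : Set (Fin 2 → ℂ) := {z | ∑ i, ‖z i‖ ^ 2 ≤ 1}

/-- radial normalisation -/
noncomputable def om (z : Fin 2 → ℂ) : Fin 2 → ℂ :=
  fun i => z i / ((Real.sqrt (∑ j, ‖z j‖ ^ 2) : ℝ) : ℂ)

/-- the norming factor of the monomial `z^(m i) w^(m (m - i))` -/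
noncomputable def kap (m i : ℕ) : ℝ :=
  (Real.sqrt ((i : ℝ) / m))⁻¹ ^ (m * i) * (Real.sqrt (1 - (i : ℝ) / m))⁻¹ ^ (m * (m - i))

/-- the middle half of the indices -/
def I (m : ℕ) : Finset ℕ := (Finset.range (m + 1)).filter (fun i => m ≤ 4 * i ∧ 4 * i ≤ 3 * m)

/-- the polynomial `W_m` -/
noncomputable def W (m : ℕ) : MvPolynomial (Fin 2) ℂ :=
  ∑ i ∈ I m, C (kap m i : ℂ) * X 0 ^ (m * i) * X 1 ^ (m * (m - i))

/-- the holomorphic approximation of `conj f * W_m` -/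
noncomputable def Q (f : MvPolynomial (Fin 2) ℂ) (m : ℕ) : MvPolynomial (Fin 2) ℂ :=
  ∑ d ∈ f.support, ∑ i ∈ I m,
    C ((starRingEnd ℂ) (coeff d f) *
      ((((i : ℝ) / m) ^ (d 0) * (1 - (i : ℝ) / m) ^ (d 1) * kap m i : ℝ) : ℂ)) *
      X 0 ^ (m * i - d 0) * X 1 ^ (m * (m - i) - d 1)

end Pool.Agent.TH44.RP
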