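import Pool.Agent.TH44.RP.Defs
set_option autoImplicit false
open MeasureTheory MvPolynomial
namespace Pool.Agent.TH44.RP

theorem Fourx.key (w : ℂ) (hw : ‖w‖ ≤ 1) :
    2 * (1 + w.im ^ 2 / 3) ≤ ‖1 + w‖ + ‖1 - w‖ := by
  have hA : ‖1 + w‖ ^ 2 = (1 + w.re) ^ 2 + w.im ^ 2 := by
    rw [Complex.sq_norm, Complex.normSq_apply]
    simp
    ring
  have hB : ‖1 - w‖ ^ 2 = (1 - w.re) ^ 2 + w.im ^ 2 := by
    rw [Complex.sq_norm, Complex.normSq_apply]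
    simp
    ring
  have hAB : 1 - w.re ^ 2 + w.im ^ 2 ≤ ‖1 + w‖ * ‖1 - w‖ := by
    rw [← norm_mul]
    have h1 : ((1 + w) * (1 - w)).re = 1 - w.re ^ 2 + w.im ^ 2 := by
      simp [Complex.mul_re]
      ring
    rw [← h1]
    exact Complex.re_le_norm _
  have hw2 : w.re ^ 2 + w.im ^ 2 ≤ 1 := by
    have h2 : ‖w‖ ^ 2 = w.re ^ 2 + w.im ^ 2 := by
      rw [Complex.sq_norm, Complex.normSq_apply]
      ring
    rw [← h2]
    have h0 := norm_nonneg w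
    nlinarith
  have hy : w.im ^ 2 ≤ 1 := by nlinarith [sq_nonneg w.re]
  have hy0 : 0 ≤ w.im ^ 2 := sq_nonneg _
  have hn : 0 ≤ ‖1 + w‖ + ‖1 - w‖ := by positivity
  refine abs_le_of_sq_le_sq' ?_ hn |>.2
  nlinarith

theorem four (f h : ℂ) (hh : ‖h‖ ≤ ‖f‖) (hf : f ≠ 0) :
    4 * (‖f‖ + ‖h‖ ^ 2 / (6 * ‖f‖)) ≤
      ‖f + h‖ + ‖f - h‖ + ‖f + Complex.I * h‖ + ‖f - Complex.I * h‖ := by
  have hfp : 0 < ‖f‖ := norm_pos_iff.mpr hf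
  obtain ⟨z, rfl⟩ : ∃ z : ℂ, h = f * z := ⟨h / f, by field_simp⟩
  have hz : ‖z‖ ≤ 1 := by
    rw [norm_mul] at hh
    by_contra hc
    push Not at hc
    nlinarith
  have e1 : ‖f + f * z‖ = ‖f‖ * ‖1 + z‖ := by
    rw [← norm_mul]; congr 1; ring
  have e2 : ‖f - f * z‖ = ‖f‖ * ‖1 - z‖ := by
    rw [← norm_mul]; congr 1; ring
  have e3 : ‖f + Complex.I * (f * z)‖ = ‖f‖ * ‖1 + Complex.I * z‖ := by
    rw [← norm_mul]; congr 1; ring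
  have e4 : ‖f - Complex.I * (f * z)‖ = ‖f‖ * ‖1 - Complex.I * z‖ := by
    rw [← norm_mul]; congr 1; ring
  have hz2 : ‖Complex.I * z‖ ≤ 1 := by simpa using hz
  have k1 := Fourx.key z hz
  have k2 := Fourx.key (Complex.I * z) hz2
  have him : (Complex.I * z).im = z.re := by simp
  rw [him] at k2
  have h2 : ‖z‖ ^ 2 = z.re ^ 2 + z.im ^ 2 := by
    rw [Complex.sq_norm, Complex.normSq_apply]
    ring
  have hl : 4 * (‖f‖ + ‖f * z‖ ^ 2 / (6 * ‖f‖)) = ‖f‖ * (4 * (1 + ‖z‖ ^ 2 / 6)) := by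
    rw [norm_mul]
    field_simp
  rw [hl, e1, e2, e3, e4, h2]
  have hs : 4 * (1 + (z.re ^ 2 + z.im ^ 2) / 6) ≤
      ‖1 + z‖ + ‖1 - z‖ + ‖1 + Complex.I * z‖ + ‖1 - Complex.I * z‖ := by
    nlinarith
  calc ‖f‖ * (4 * (1 + (z.re ^ 2 + z.im ^ 2) / 6))
      ≤ ‖f‖ * (‖1 + z‖ + ‖1 - z‖ + ‖1 + Complex.I * z‖ + ‖1 - Complex.I * z‖) :=
        mul_le_mul_of_nonneg_left hs hfp.le
    _ = _ := by ring

end Pool.Agent.TH44.RP
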