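import Pool.Agent.TH44.RP.Defs
set_option autoImplicit false
open MeasureTheory MvPolynomial
namespace Pool.Agent.TH44.RP

namespace Lowx

/-- The product of one term with its inverse. -/
theorem term_mul (m i : ℕ) (r s x : ℝ) (hx : x = (i : ℝ) / m) (hx0 : 0 < x) (hx1 : 0 < 1 - x)
    (hr : 0 < r ^ 2) (hs : 0 < s ^ 2) :
    kap m i ^ 2 * r ^ (2 * (m * i)) * s ^ (2 * (m * (m - i))) *
      ((x / r ^ 2) ^ (m * i) * ((1 - x) / s ^ 2) ^ (m * (m - i))) = 1 := by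
  have hk : kap m i ^ 2 = (x⁻¹) ^ (m * i) * ((1 - x)⁻¹) ^ (m * (m - i)) := by
    have g1 : (Real.sqrt x)⁻¹ ^ 2 = x⁻¹ := by rw [inv_pow, Real.sq_sqrt hx0.le]
    have g2 : (Real.sqrt (1 - x))⁻¹ ^ 2 = (1 - x)⁻¹ := by rw [inv_pow, Real.sq_sqrt hx1.le]
    unfold kap
    rw [← hx, mul_pow, pow_right_comm, pow_right_comm _ (m * (m - i)), g1, g2]
  rw [hk, pow_mul r 2, pow_mul s 2]
  have e : (x⁻¹) ^ (m * i) * ((1 - x)⁻¹) ^ (m * (m - i)) * (r ^ 2) ^ (m * i) *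
      (s ^ 2) ^ (m * (m - i)) * ((x / r ^ 2) ^ (m * i) * ((1 - x) / s ^ 2) ^ (m * (m - i))) =
      (x⁻¹ * r ^ 2 * (x / r ^ 2)) ^ (m * i) *
        ((1 - x)⁻¹ * s ^ 2 * ((1 - x) / s ^ 2)) ^ (m * (m - i)) := by
    rw [mul_pow, mul_pow, mul_pow, mul_pow]
    ring
  have e1 : x⁻¹ * r ^ 2 * (x / r ^ 2) = 1 := by
    have h1 := hx0.ne'
    have h2 := hr.ne'
    rw [mul_assoc, mul_div_cancel₀ _ h2, inv_mul_cancel₀ h1]
  have e2 : (1 - x)⁻¹ * s ^ 2 * ((1 - x) / s ^ 2) = 1 := by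
    have h1 := hx1.ne'
    have h2 := hs.ne'
    rw [mul_assoc, mul_div_cancel₀ _ h2, inv_mul_cancel₀ h1]
  rw [e, e1, e2, one_pow, one_pow, one_mul]

/-- Upper bound for a power. -/
theorem pow_le_exp (u : ℝ) (hu : 0 ≤ u) (n : ℕ) : u ^ n ≤ Real.exp (n * (u - 1)) := by
  have h1 : u ≤ Real.exp (u - 1) := by
    have := Real.add_one_le_exp (u - 1)
    linarith
  calc u ^ n ≤ Real.exp (u - 1) ^ n := pow_le_pow_left₀ hu h1 n
    _ = _ := by rw [← Real.exp_nat_mul]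

end Lowx

open Lowx

theorem low (m : ℕ) (hm : 6 ≤ m) (r s : ℝ) (hr : 0 ≤ r) (hs : 0 ≤ s) (hrs : r ^ 2 + s ^ 2 = 1)
    (h1 : 1 / 3 ≤ r ^ 2) (h2 : r ^ 2 ≤ 2 / 3) :
    Real.exp (-2) ≤ ∑ i ∈ I m, kap m i ^ 2 * r ^ (2 * (m * i)) * s ^ (2 * (m * (m - i))) := by
  have hm' : (6 : ℝ) ≤ m := by exact_mod_cast hm
  have hm0 : (0 : ℝ) < m := by linarith
  have hy0 : (0 : ℝ) ≤ (m : ℝ) * r ^ 2 + 1 / 2 := by positivity
  obtain ⟨i, hi⟩ : ∃ i : ℕ, i = ⌊(m : ℝ) * r ^ 2 + 1 / 2⌋₊ := ⟨_, rfl⟩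
  have hi1 : (i : ℝ) ≤ (m : ℝ) * r ^ 2 + 1 / 2 := by rw [hi]; exact Nat.floor_le hy0
  have hi2 : (m : ℝ) * r ^ 2 + 1 / 2 < i + 1 := by rw [hi]; exact Nat.lt_floor_add_one _
  have hml : (m : ℝ) * (1 / 3) ≤ m * r ^ 2 := mul_le_mul_of_nonneg_left h1 hm0.le
  have hmu : (m : ℝ) * r ^ 2 ≤ m * (2 / 3) := mul_le_mul_of_nonneg_left h2 hm0.le
  have hi3 : (m : ℝ) ≤ 4 * i := by linarith
  have hi4 : (4 : ℝ) * i ≤ 3 * m := by linarith
  have hi3' : m ≤ 4 * i := by exact_mod_cast hi3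
  have hi4' : 4 * i ≤ 3 * m := by exact_mod_cast hi4
  have him : i ≤ m := by omega
  have hmem : i ∈ I m := by
    unfold I
    rw [Finset.mem_filter, Finset.mem_range]
    exact ⟨by omega, hi3', hi4'⟩
  have hnn : ∀ j ∈ I m, 0 ≤ kap m j ^ 2 * r ^ (2 * (m * j)) * s ^ (2 * (m * (m - j))) := by
    intro j _
    positivity
  refine le_trans ?_ (Finset.single_le_sum hnn hmem)
  obtain ⟨x, hx⟩ : ∃ x : ℝ, x = (i : ℝ) / m := ⟨_, rfl⟩
  have hxm : (m : ℝ) * x = i := by rw [hx]; field_simp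
  have hx0 : 0 < x := by
    have : 0 < (m : ℝ) * x := by rw [hxm]; linarith
    exact (mul_pos_iff_of_pos_left hm0).1 this
  have hx1 : 0 < 1 - x := by
    have : 0 < (m : ℝ) * (1 - x) := by rw [mul_sub, hxm]; linarith
    exact (mul_pos_iff_of_pos_left hm0).1 this
  have hr2 : 0 < r ^ 2 := by linarith
  have hs2 : 0 < s ^ 2 := by linarith
  have hT := term_mul m i r s x hx hx0 hx1 hr2 hs2
  have hT0 := hnn i hmem
  have hu := pow_le_exp (x / r ^ 2) (by positivity) (m * i)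
  have hv := pow_le_exp ((1 - x) / s ^ 2) (div_nonneg hx1.le hs2.le) (m * (m - i))
  have hexp : ((m * i : ℕ) : ℝ) * (x / r ^ 2 - 1) +
      ((m * (m - i) : ℕ) : ℝ) * ((1 - x) / s ^ 2 - 1) ≤ 2 := by
    have c1 : ((m * i : ℕ) : ℝ) = m * (m * x) := by rw [hxm]; push_cast; ring
    have c2 : ((m * (m - i) : ℕ) : ℝ) = m * (m * (1 - x)) := by
      rw [Nat.cast_mul, Nat.cast_sub him, ← hxm]; ring
    have hs3 : s ^ 2 = 1 - r ^ 2 := by linarith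
    obtain ⟨t, ht⟩ : ∃ t : ℝ, t = r ^ 2 := ⟨_, rfl⟩
    rw [c1, c2, hs3, ← ht]
    rw [← ht] at h1 h2 hr2 hi1 hi2
    rw [hs3, ← ht] at hs2
    have e : (m : ℝ) * (m * x) * (x / t - 1) + m * (m * (1 - x)) * ((1 - x) / (1 - t) - 1) =
        (m * x - m * t) ^ 2 / (t * (1 - t)) := by
      have g1 := hr2.ne'
      have g2 := hs2.ne'
      field_simp
      ring
    rw [e, div_le_iff₀ (mul_pos hr2 hs2), hxm]
    have g3 : ((i : ℝ) - m * t) ^ 2 ≤ 1 / 4 := by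
      have : |(i : ℝ) - m * t| ≤ 1 / 2 := abs_le.2 ⟨by linarith, by linarith⟩
      calc ((i : ℝ) - m * t) ^ 2 = |(i : ℝ) - m * t| ^ 2 := (sq_abs _).symm
        _ ≤ (1 / 2) ^ 2 := pow_le_pow_left₀ (abs_nonneg _) this 2
        _ = _ := by norm_num
    have g4 : 2 / 9 ≤ t * (1 - t) := by nlinarith [mul_nonneg (sub_nonneg.2 h1) (sub_nonneg.2 h2)]
    linarith
  have hprod : (x / r ^ 2) ^ (m * i) * ((1 - x) / s ^ 2) ^ (m * (m - i)) ≤ Real.exp 2 := by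
    calc (x / r ^ 2) ^ (m * i) * ((1 - x) / s ^ 2) ^ (m * (m - i))
        ≤ Real.exp (((m * i : ℕ) : ℝ) * (x / r ^ 2 - 1)) *
          Real.exp (((m * (m - i) : ℕ) : ℝ) * ((1 - x) / s ^ 2 - 1)) :=
          mul_le_mul hu hv (pow_nonneg (div_nonneg hx1.le hs2.le) _) (Real.exp_pos _).le
      _ = Real.exp (((m * i : ℕ) : ℝ) * (x / r ^ 2 - 1) +
          ((m * (m - i) : ℕ) : ℝ) * ((1 - x) / s ^ 2 - 1)) := (Real.exp_add _ _).symm
      _ ≤ Real.exp 2 := Real.exp_le_exp.2 hexp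
  have hfin : 1 ≤ kap m i ^ 2 * r ^ (2 * (m * i)) * s ^ (2 * (m * (m - i))) * Real.exp 2 := by
    rw [← hT]
    exact mul_le_mul_of_nonneg_left hprod hT0
  calc Real.exp (-2) = Real.exp (-2) * 1 := (mul_one _).symm
    _ ≤ Real.exp (-2) *
      (kap m i ^ 2 * r ^ (2 * (m * i)) * s ^ (2 * (m * (m - i))) * Real.exp 2) :=
        mul_le_mul_of_nonneg_left hfin (Real.exp_pos _).le
    _ = kap m i ^ 2 * r ^ (2 * (m * i)) * s ^ (2 * (m * (m - i))) *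
      (Real.exp (-2) * Real.exp 2) := by ring
    _ = _ := by rw [← Real.exp_add]; norm_num

end Pool.Agent.TH44.RP
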