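import Pool.Agent.TH44.RP.Defs

/-!
Orthogonality of the monomials on the ball (job 5687, helper200).
-/

set_option autoImplicit false

open MeasureTheory MvPolynomial

namespace Pool.Agent.TH44.RP

namespace Orthx

/-- the integrand -/
noncomputable def g (p q p' q' : ℕ) (z : Fin 2 → ℂ) : ℂ :=
  (om z 0) ^ p * (om z 1) ^ q * (starRingEnd ℂ (om z 0)) ^ p' * (starRingEnd ℂ (om z 1)) ^ q'

/-- the rotation -/
noncomputable def T (e : Fin 2 → Circle) : (Fin 2 → ℂ) ≃ᵐ (Fin 2 → ℂ) :=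
  MeasurableEquiv.piCongrRight fun i => (rotation (e i)).toHomeomorph.toMeasurableEquiv

lemma T_apply (e : Fin 2 → Circle) (z : Fin 2 → ℂ) (i : Fin 2) : T e z i = (e i : ℂ) * z i := rfl

lemma T_mp (e : Fin 2 → Circle) : MeasurePreserving (T e) volume volume :=
  volume_preserving_pi fun i => (rotation (e i)).measurePreserving

lemma T_norm (e : Fin 2 → Circle) (z : Fin 2 → ℂ) (i : Fin 2) : ‖T e z i‖ = ‖z i‖ := by
  rw [T_apply, norm_mul, Circle.norm_coe, one_mul]

lemma T_B2 (e : Fin 2 → Circle) : T e ⁻¹' B2 = B2 := by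
  ext z
  simp only [B2, Set.mem_preimage, Set.mem_ofPred_eq, T_norm]

lemma om_T (e : Fin 2 → Circle) (z : Fin 2 → ℂ) (i : Fin 2) :
    om (T e z) i = (e i : ℂ) * om z i := by
  simp only [om, T_norm]
  rw [T_apply, mul_div_assoc]

lemma key (p q p' q' : ℕ) (e : Fin 2 → Circle) (c : ℂ)
    (hc : (e 0 : ℂ) ^ p * (e 1 : ℂ) ^ q * (starRingEnd ℂ (e 0 : ℂ)) ^ p' *
      (starRingEnd ℂ (e 1 : ℂ)) ^ q' = c) (h1 : c ≠ 1) :
    ∫ z in B2, g p q p' q' z = 0 := by
  have h2 := (T_mp e).setIntegral_preimage_emb (T e).measurableEmbedding (g p q p' q') B2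
  rw [T_B2] at h2
  have h3 : ∀ z, g p q p' q' (T e z) = c * g p q p' q' z := by
    intro z
    simp only [g, om_T, map_mul, mul_pow]
    rw [← hc]
    ring
  simp only [h3] at h2
  rw [integral_const_mul] at h2
  have h4 : (c - 1) * ∫ z in B2, g p q p' q' z = 0 := by linear_combination h2
  exact (mul_eq_zero.mp h4).resolve_left (sub_ne_zero.mpr h1)

lemma circ (p p' : ℕ) (h : p ≠ p') :
    ((Circle.exp (Real.pi / ((p : ℝ) - p')) : Circle) : ℂ) ^ p *
      (starRingEnd ℂ ((Circle.exp (Real.pi / ((p : ℝ) - p')) : Circle) : ℂ)) ^ p' = -1 := by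
  have hne : (p : ℂ) - p' ≠ 0 := by
    rw [sub_ne_zero]
    exact_mod_cast h
  rw [Circle.coe_exp, ← Complex.exp_conj, ← Complex.exp_nat_mul, ← Complex.exp_nat_mul,
    ← Complex.exp_add, ← Complex.exp_pi_mul_I]
  congr 1
  rw [map_mul, Complex.conj_I, Complex.conj_ofReal]
  push_cast
  field_simp
  ring

end Orthx

open Orthx in
theorem orth (p q p' q' : ℕ) (h : ¬ (p = p' ∧ q = q')) :
    ∫ z in B2, (om z 0) ^ p * (om z 1) ^ q * (starRingEnd ℂ (om z 0)) ^ p' *
      (starRingEnd ℂ (om z 1)) ^ q' = 0 := by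
  show ∫ z in B2, g p q p' q' z = 0
  by_cases hp : p = p'
  · have hq : q ≠ q' := fun hq => h ⟨hp, hq⟩
    refine key p q p' q' ![1, Circle.exp (Real.pi / ((q : ℝ) - q'))] (-1) ?_ (by norm_num)
    have := circ q q' hq
    simp only [Matrix.cons_val_zero, Matrix.cons_val_one, Circle.coe_one, map_one, one_pow,
      one_mul, mul_one]
    exact this
  · refine key p q p' q' ![Circle.exp (Real.pi / ((p : ℝ) - p')), 1] (-1) ?_ (by norm_num)
    have := circ p p' hp
    simp only [Matrix.cons_val_zero, Matrix.cons_val_one, Circle.coe_one, map_one, one_pow,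
      one_mul, mul_one]
    exact this

end Pool.Agent.TH44.RP
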