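import Pool.Agent.TH44.RP.Defs
import Pool.Agent.TH44.RP.Orth

set_option autoImplicit false

open MeasureTheory MvPolynomial

namespace Pool.Agent.TH44.RP

namespace Meanx

theorem om_norm_le (z : Fin 2 → ℂ) (i : Fin 2) : ‖om z i‖ ≤ 1 := by
  unfold om
  rw [norm_div, Complex.norm_real, Real.norm_of_nonneg (Real.sqrt_nonneg _)]
  refine div_le_one_of_le₀ ?_ (Real.sqrt_nonneg _)
  refine Real.le_sqrt_of_sq_le ?_
  exact Finset.single_le_sum (f := fun j => ‖z j‖ ^ 2) (fun j _ => by positivity)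
    (Finset.mem_univ i)

theorem om_meas (i : Fin 2) : Measurable fun z : Fin 2 → ℂ => om z i := by
  unfold om
  fun_prop

noncomputable def mono (p q p' q' : ℕ) (z : Fin 2 → ℂ) : ℂ :=
  (om z 0) ^ p * (om z 1) ^ q * (starRingEnd ℂ (om z 0)) ^ p' * (starRingEnd ℂ (om z 1)) ^ q'

theorem mono_meas (p q p' q' : ℕ) : Measurable (mono p q p' q') := by
  have h0 := om_meas 0
  have h1 := om_meas 1
  have h0' : Measurable fun z : Fin 2 → ℂ => starRingEnd ℂ (om z 0) :=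
    Complex.continuous_conj.measurable.comp h0
  have h1' : Measurable fun z : Fin 2 → ℂ => starRingEnd ℂ (om z 1) :=
    Complex.continuous_conj.measurable.comp h1
  exact (((h0.pow_const p).mul (h1.pow_const q)).mul (h0'.pow_const p')).mul (h1'.pow_const q')

theorem mono_norm (p q p' q' : ℕ) (z : Fin 2 → ℂ) : ‖mono p q p' q' z‖ ≤ 1 := by
  unfold mono
  rw [norm_mul, norm_mul, norm_mul, norm_pow, norm_pow, norm_pow, norm_pow, RCLike.norm_conj,
    RCLike.norm_conj]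
  have h0 := om_norm_le z 0
  have h1 := om_norm_le z 1
  have a0 := norm_nonneg (om z 0)
  have a1 := norm_nonneg (om z 1)
  have e1 : ‖om z 0‖ ^ p ≤ 1 := pow_le_one₀ a0 h0
  have e2 : ‖om z 1‖ ^ q ≤ 1 := pow_le_one₀ a1 h1
  have e3 : ‖om z 0‖ ^ p' ≤ 1 := pow_le_one₀ a0 h0
  have e4 : ‖om z 1‖ ^ q' ≤ 1 := pow_le_one₀ a1 h1
  have f1 : 0 ≤ ‖om z 0‖ ^ p := by positivity
  have f2 : 0 ≤ ‖om z 1‖ ^ q := by positivity
  have f3 : 0 ≤ ‖om z 0‖ ^ p' := by positivity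
  have f4 : 0 ≤ ‖om z 1‖ ^ q' := by positivity
  exact mul_le_one₀ (mul_le_one₀ (mul_le_one₀ e1 f2 e2) f3 e3) f4 e4

theorem B2_meas : MeasurableSet B2 := by
  unfold B2
  refine measurableSet_le ?_ measurable_const
  fun_prop

theorem B2_fin : volume B2 ≠ ⊤ := by
  have hsub : B2 ⊆ Metric.closedBall (0 : Fin 2 → ℂ) 1 := by
    intro z hz
    rw [mem_closedBall_zero_iff]
    refine (pi_norm_le_iff_of_nonneg zero_le_one).2 fun i => ?_
    have hz' : ∑ i, ‖z i‖ ^ 2 ≤ 1 := hz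
    have h1 : ‖z i‖ ^ 2 ≤ 1 :=
      (Finset.single_le_sum (f := fun j => ‖z j‖ ^ 2) (fun j _ => by positivity)
        (Finset.mem_univ i)).trans hz'
    have h2 := norm_nonneg (z i)
    nlinarith
  exact ne_top_of_le_ne_top (measure_closedBall_lt_top).ne (measure_mono hsub)

theorem mono_int (p q p' q' : ℕ) : IntegrableOn (mono p q p' q') B2 :=
  Measure.integrableOn_of_bounded (M := 1) B2_fin (mono_meas p q p' q').aestronglyMeasurable
    (ae_of_all _ (mono_norm p q p' q'))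

theorem eval_om (f : MvPolynomial (Fin 2) ℂ) (z : Fin 2 → ℂ) :
    eval (om z) f = ∑ d ∈ f.support, coeff d f * (om z 0 ^ d 0 * om z 1 ^ d 1) := by
  rw [MvPolynomial.eval_eq']
  refine Finset.sum_congr rfl fun d _ => ?_
  rw [Fin.prod_univ_two]

theorem eval_W (m : ℕ) (z : Fin 2 → ℂ) :
    eval (om z) (W m) = ∑ i ∈ I m, (kap m i : ℂ) * om z 0 ^ (m * i) * om z 1 ^ (m * (m - i)) := by
  unfold W
  simp

theorem sq_W (m : ℕ) (z : Fin 2 → ℂ) :
    ((‖eval (om z) (W m)‖ ^ 2 : ℝ) : ℂ) = ∑ i ∈ I m, ∑ j ∈ I m,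
      ((kap m i * kap m j : ℝ) : ℂ) * mono (m * i) (m * (m - i)) (m * j) (m * (m - j)) z := by
  rw [Complex.ofReal_pow, ← Complex.mul_conj', eval_W, map_sum, Finset.sum_mul_sum]
  refine Finset.sum_congr rfl fun i _ => Finset.sum_congr rfl fun j _ => ?_
  unfold mono
  rw [map_mul, map_mul, map_pow, map_pow, Complex.conj_ofReal, Complex.ofReal_mul]
  ring

theorem mono_mul (a b p q p' q' : ℕ) (z : Fin 2 → ℂ) :
    om z 0 ^ a * om z 1 ^ b * mono p q p' q' z = mono (a + p) (b + q) p' q' z := by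
  unfold mono
  ring

theorem ne_of (d : Fin 2 →₀ ℕ) (hd : d ≠ 0) : ¬ (d 0 = 0 ∧ d 1 = 0) := by
  rintro ⟨h0, h1⟩
  apply hd
  ext i
  fin_cases i
  · simpa using h0
  · simpa using h1

/-- orthogonality in terms of `mono` -/
def Orth : Prop := ∀ p q p' q' : ℕ, ¬ (p = p' ∧ q = q') →
  ∫ z in B2, (om z 0) ^ p * (om z 1) ^ q * (starRingEnd ℂ (om z 0)) ^ p' *
      (starRingEnd ℂ (om z 1)) ^ q' = 0

theorem sum_zero (f : MvPolynomial (Fin 2) ℂ) (g : (Fin 2 →₀ ℕ) → ℂ)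
    (hg : ∀ d, d ≠ 0 → g d = 0) :
    ∑ d ∈ f.support, coeff d f * g d = coeff 0 f * g 0 := by
  by_cases h : (0 : Fin 2 →₀ ℕ) ∈ f.support
  · rw [Finset.sum_eq_single_of_mem 0 h]
    intro d _ hd
    rw [hg d hd, mul_zero]
  · rw [MvPolynomial.notMem_support_iff.mp h, zero_mul]
    refine Finset.sum_eq_zero fun d hd => ?_
    have : d ≠ 0 := by
      rintro rfl
      exact h hd
    rw [hg d this, mul_zero]

theorem mean' (orth : Orth) (f : MvPolynomial (Fin 2) ℂ) :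
    ∫ z in B2, eval (om z) f = coeff 0 f * (volume.real B2 : ℂ) := by
  have e1 : ∀ z, eval (om z) f = ∑ d ∈ f.support, coeff d f * mono (d 0) (d 1) 0 0 z := by
    intro z
    rw [eval_om]
    refine Finset.sum_congr rfl fun d _ => ?_
    unfold mono
    simp
  simp_rw [e1]
  rw [integral_finsetSum]
  · simp_rw [integral_const_mul]
    rw [sum_zero f (fun d => ∫ z in B2, mono (d 0) (d 1) 0 0 z)]
    · congr 1
      simp [mono]
    · intro d hd
      exact orth _ _ _ _ (ne_of d hd)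
  · intro d _
    exact (mono_int _ _ _ _).const_mul _

theorem key (m : ℕ) (hm : 0 < m) (a b i j : ℕ) (hi : i ≤ m) (hj : j ≤ m)
    (h0 : a + m * i = m * j) (h1 : b + m * (m - i) = m * (m - j)) : a = 0 ∧ b = 0 ∧ i = j := by
  have e1 : m * i + m * (m - i) = m * m := by
    rw [← Nat.mul_add, Nat.add_sub_cancel' hi]
  have e2 : m * j + m * (m - j) = m * m := by
    rw [← Nat.mul_add, Nat.add_sub_cancel' hj]
  have ha : a = 0 := by omega
  have hb : b = 0 := by omega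
  refine ⟨ha, hb, ?_⟩
  subst ha
  rw [zero_add] at h0
  exact Nat.eq_of_mul_eq_mul_left hm h0

theorem I_le {m i : ℕ} (hi : i ∈ I m) : i ≤ m := by
  have := (Finset.mem_filter.mp hi).1
  rw [Finset.mem_range] at this
  omega

theorem meanW' (orth : Orth) (f : MvPolynomial (Fin 2) ℂ) (m : ℕ) (hm : 0 < m) :
    ∫ z in B2, eval (om z) f * ((‖eval (om z) (W m)‖ ^ 2 : ℝ) : ℂ) = coeff 0 f *
      ((∫ z in B2, ∑ i ∈ I m, kap m i ^ 2 * ‖om z 0‖ ^ (2 * (m * i)) *
        ‖om z 1‖ ^ (2 * (m * (m - i))) : ℝ) : ℂ) := by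
  have e1 : ∀ z, eval (om z) f * ((‖eval (om z) (W m)‖ ^ 2 : ℝ) : ℂ) =
      ∑ d ∈ f.support, coeff d f * ∑ i ∈ I m, ∑ j ∈ I m, ((kap m i * kap m j : ℝ) : ℂ) *
        mono (d 0 + m * i) (d 1 + m * (m - i)) (m * j) (m * (m - j)) z := by
    intro z
    rw [eval_om, sq_W, Finset.sum_mul]
    refine Finset.sum_congr rfl fun d _ => ?_
    rw [mul_assoc, Finset.mul_sum]
    congr 1
    refine Finset.sum_congr rfl fun i _ => ?_
    rw [Finset.mul_sum]
    refine Finset.sum_congr rfl fun j _ => ?_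
    rw [← mono_mul]
    ring
  have int1 : ∀ (d : Fin 2 →₀ ℕ) (i j : ℕ), Integrable (fun z => ((kap m i * kap m j : ℝ) : ℂ) *
        mono (d 0 + m * i) (d 1 + m * (m - i)) (m * j) (m * (m - j)) z)
        (volume.restrict B2) := fun d i j => (mono_int _ _ _ _).const_mul _
  have e2 : ∀ d : Fin 2 →₀ ℕ, ∫ z in B2, (∑ i ∈ I m, ∑ j ∈ I m, ((kap m i * kap m j : ℝ) : ℂ) *
        mono (d 0 + m * i) (d 1 + m * (m - i)) (m * j) (m * (m - j)) z) =
      ∑ i ∈ I m, ∑ j ∈ I m, ((kap m i * kap m j : ℝ) : ℂ) *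
        ∫ z in B2, mono (d 0 + m * i) (d 1 + m * (m - i)) (m * j) (m * (m - j)) z := by
    intro d
    rw [integral_finsetSum _ (fun i _ => integrable_finsetSum _ fun j _ => int1 d i j)]
    refine Finset.sum_congr rfl fun i _ => ?_
    rw [integral_finsetSum _ (fun j _ => int1 d i j)]
    refine Finset.sum_congr rfl fun j _ => ?_
    rw [integral_const_mul]
  simp_rw [e1]
  rw [integral_finsetSum _ (fun d _ => (integrable_finsetSum _ fun i _ =>
    integrable_finsetSum _ fun j _ => int1 d i j).const_mul _)]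
  simp_rw [integral_const_mul, e2]
  rw [sum_zero f (fun d => ∑ i ∈ I m, ∑ j ∈ I m, ((kap m i * kap m j : ℝ) : ℂ) *
        ∫ z in B2, mono (d 0 + m * i) (d 1 + m * (m - i)) (m * j) (m * (m - j)) z)]
  · congr 1
    rw [← integral_complex_ofReal]
    have e3 : ∀ z : Fin 2 → ℂ, (((∑ i ∈ I m, kap m i ^ 2 * ‖om z 0‖ ^ (2 * (m * i)) *
        ‖om z 1‖ ^ (2 * (m * (m - i))) : ℝ)) : ℂ) = ∑ i ∈ I m, ((kap m i * kap m i : ℝ) : ℂ) *
        mono (m * i) (m * (m - i)) (m * i) (m * (m - i)) z := by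
      intro z
      rw [Complex.ofReal_sum]
      refine Finset.sum_congr rfl fun i _ => ?_
      unfold mono
      have h0 : ((‖om z 0‖ : ℝ) : ℂ) ^ 2 = om z 0 * starRingEnd ℂ (om z 0) :=
        (Complex.mul_conj' _).symm
      have h1 : ((‖om z 1‖ : ℝ) : ℂ) ^ 2 = om z 1 * starRingEnd ℂ (om z 1) :=
        (Complex.mul_conj' _).symm
      push_cast
      rw [pow_mul, pow_mul ((‖om z 1‖ : ℝ) : ℂ), h0, h1, mul_pow, mul_pow]
      ring
    simp_rw [e3]
    rw [integral_finsetSum _ (fun i _ => (mono_int _ _ _ _).const_mul _)]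
    refine Finset.sum_congr rfl fun i hi => ?_
    rw [Finset.sum_eq_single_of_mem i hi]
    · rw [integral_const_mul]
      simp
    · intro j hj hji
      rw [show (∫ z in B2, mono ((0 : Fin 2 →₀ ℕ) 0 + m * i) ((0 : Fin 2 →₀ ℕ) 1 + m * (m - i))
        (m * j) (m * (m - j)) z) = 0 from orth _ _ _ _ ?_, mul_zero]
      rintro ⟨h0, h1⟩
      exact hji (key m hm _ _ i j (I_le hi) (I_le hj) h0 h1).2.2.symm
  · intro d hd
    refine Finset.sum_eq_zero fun i hi => Finset.sum_eq_zero fun j hj => ?_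
    rw [show (∫ z in B2, mono (d 0 + m * i) (d 1 + m * (m - i)) (m * j) (m * (m - j)) z) = 0 from
      orth _ _ _ _ ?_, mul_zero]
    rintro ⟨h0, h1⟩
    have := key m hm _ _ i j (I_le hi) (I_le hj) h0 h1
    exact ne_of d hd ⟨this.1, this.2.1⟩

theorem orthP : Orth := fun p q p' q' h => orth p q p' q' h

end Meanx

theorem mean (f : MvPolynomial (Fin 2) ℂ) :
    ∫ z in B2, eval (om z) f = coeff 0 f * (volume.real B2 : ℂ) :=
  Meanx.mean' Meanx.orthP f

theorem meanW (f : MvPolynomial (Fin 2) ℂ) (m : ℕ) (hm : 0 < m) :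
    ∫ z in B2, eval (om z) f * ((‖eval (om z) (W m)‖ ^ 2 : ℝ) : ℂ) = coeff 0 f *
      ((∫ z in B2, ∑ i ∈ I m, kap m i ^ 2 * ‖om z 0‖ ^ (2 * (m * i)) *
        ‖om z 1‖ ^ (2 * (m * (m - i))) : ℝ) : ℂ) :=
  Meanx.meanW' Meanx.orthP f m hm

end Pool.Agent.TH44.RP
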