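import Pool.Agent.TH44.RP.Defs

/-!
The part of the ball over the middle of the sphere has positive volume
-/

set_option autoImplicit false
open MeasureTheory MvPolynomial
namespace Pool.Agent.TH44.RP

namespace Posvolx

theorem om_sq (z : Fin 2 → ℂ) (i : Fin 2) (h : 0 < ∑ j, ‖z j‖ ^ 2) :
    ‖om z i‖ ^ 2 = ‖z i‖ ^ 2 / ∑ j, ‖z j‖ ^ 2 := by
  unfold om
  rw [norm_div, Complex.norm_real, Real.norm_eq_abs, abs_of_nonneg (Real.sqrt_nonneg _), div_pow,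
    Real.sq_sqrt h.le]

/-- an open set -/
def U : Set (Fin 2 → ℂ) := {z | ∑ j, ‖z j‖ ^ 2 < 1 ∧ 0 < ∑ j, ‖z j‖ ^ 2 ∧
  1 / 3 * ∑ j, ‖z j‖ ^ 2 < ‖z 0‖ ^ 2 ∧ ‖z 0‖ ^ 2 < 2 / 3 * ∑ j, ‖z j‖ ^ 2}

theorem U_open : IsOpen U := by
  unfold U
  refine IsOpen.and ?_ (IsOpen.and ?_ (IsOpen.and ?_ ?_)) <;>
    exact isOpen_lt (by fun_prop) (by fun_prop)

theorem U_ne : U.Nonempty := by
  refine ⟨fun _ => (1 / 2 : ℂ), ?_⟩
  have h : ‖(1 / 2 : ℂ)‖ = 1 / 2 := by norm_num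
  simp only [U, Set.mem_ofPred_eq, h, Fin.sum_univ_two]
  norm_num

theorem B2_fin : volume B2 < ⊤ := by
  refine lt_of_le_of_lt (measure_mono (t := Metric.closedBall (0 : Fin 2 → ℂ) 1) ?_)
    measure_closedBall_lt_top
  intro z hz
  have hz' : ∑ i, ‖z i‖ ^ 2 ≤ 1 := hz
  rw [Metric.mem_closedBall, dist_zero_right, pi_norm_le_iff_of_nonneg zero_le_one]
  intro i
  have h1 : ‖z i‖ ^ 2 ≤ ∑ i, ‖z i‖ ^ 2 :=
    Finset.single_le_sum (f := fun i => ‖z i‖ ^ 2) (fun _ _ => by positivity) (Finset.mem_univ i)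
  have h2 := norm_nonneg (z i)
  nlinarith

end Posvolx

theorem posvol : 0 < volume.real {z : Fin 2 → ℂ | z ∈ B2 ∧ 1 / 3 ≤ ‖om z 0‖ ^ 2 ∧ ‖om z 0‖ ^ 2 ≤ 2 / 3 ∧
    ‖om z 0‖ ^ 2 + ‖om z 1‖ ^ 2 = 1} := by
  refine ENNReal.toReal_pos ?_ ?_
  · refine ne_of_gt (lt_of_lt_of_le (Posvolx.U_open.measure_pos volume Posvolx.U_ne)
      (measure_mono ?_))
    rintro z ⟨h1, h2, h3, h4⟩
    refine ⟨h1.le, ?_, ?_, ?_⟩
    · rw [Posvolx.om_sq z 0 h2, le_div_iff₀ h2]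
      exact h3.le
    · rw [Posvolx.om_sq z 0 h2, div_le_iff₀ h2]
      exact h4.le
    · rw [Posvolx.om_sq z 0 h2, Posvolx.om_sq z 1 h2, ← add_div, ← Fin.sum_univ_two (f := fun j => ‖z j‖ ^ 2)]
      exact div_self h2.ne'
  · exact ne_of_lt (lt_of_le_of_lt (measure_mono fun z hz => hz.1) Posvolx.B2_fin)

end Pool.Agent.TH44.RP
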