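import Pool.Agent.TH44.RP.Defs

set_option autoImplicit false

open MeasureTheory MvPolynomial

namespace Pool.Agent.TH44.RP

namespace Ptwisex

/-- `y ^ n ≤ exp (n (y - 1))` -/
theorem pow_le_exp {y : ℝ} (hy : 0 ≤ y) (n : ℕ) : y ^ n ≤ Real.exp (n * (y - 1)) := by
  have h1 : y ≤ Real.exp (y - 1) := by
    have := Real.add_one_le_exp (y - 1)
    linarith
  rw [Real.exp_nat_mul]
  exact pow_le_pow_left₀ hy h1 n

/-- the exponent -/
theorem expo {a b r s M I J p q : ℝ} (ha : 0 < a) (hb : 0 < b) (ha1 : a ≤ 1) (hb1 : b ≤ 1)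
    (hr : 0 ≤ r) (hs : 0 ≤ s) (hrs : r ^ 2 + s ^ 2 = 1) (hab : a ^ 2 + b ^ 2 = 1)
    (hI : I = M ^ 2 * a ^ 2) (hJ : J = M ^ 2 * b ^ 2) (hp : 0 ≤ p) (hq : 0 ≤ q) :
    (I - p) * (r * a⁻¹ - 1) + (J - q) * (s * b⁻¹ - 1) ≤
      (p + q) + -(M * a ^ 2 - M * r ^ 2) ^ 2 / 4 := by
  have hr1 : r ≤ 1 := by nlinarith [sq_nonneg s]
  have hs1 : s ≤ 1 := by nlinarith [sq_nonneg r]
  have h1 : I * (r * a⁻¹ - 1) = M ^ 2 * (a * r - a ^ 2) := by
    rw [hI]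
    field_simp
  have h2 : J * (s * b⁻¹ - 1) = M ^ 2 * (b * s - b ^ 2) := by
    rw [hJ]
    field_simp
  have h3 : 0 ≤ p * (r * a⁻¹) := by positivity
  have h4 : 0 ≤ q * (s * b⁻¹) := by positivity
  have h5 : (r ^ 2 - a ^ 2) ^ 2 ≤ 4 * (r - a) ^ 2 := by
    have e : (r ^ 2 - a ^ 2) ^ 2 = (r + a) ^ 2 * (r - a) ^ 2 := by ring
    rw [e]
    apply mul_le_mul_of_nonneg_right _ (sq_nonneg _)
    have : (r + a) ^ 2 ≤ 2 ^ 2 := pow_le_pow_left₀ (by linarith) (by linarith) 2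
    linarith
  have h6 : (r ^ 2 - a ^ 2) ^ 2 ≤ 4 * (s - b) ^ 2 := by
    have e : (r ^ 2 - a ^ 2) ^ 2 = (s + b) ^ 2 * (s - b) ^ 2 := by
      have e1 : r ^ 2 - a ^ 2 = -((s + b) * (s - b)) := by
        linear_combination hrs - hab
      rw [e1]
      ring
    rw [e]
    apply mul_le_mul_of_nonneg_right _ (sq_nonneg _)
    have : (s + b) ^ 2 ≤ 2 ^ 2 := pow_le_pow_left₀ (by linarith) (by linarith) 2
    linarith
  have h7 : a * r - a ^ 2 + (b * s - b ^ 2) ≤ -(r ^ 2 - a ^ 2) ^ 2 / 4 := by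
    nlinarith
  have h8 : M ^ 2 * (a * r - a ^ 2 + (b * s - b ^ 2)) ≤ M ^ 2 * (-(r ^ 2 - a ^ 2) ^ 2 / 4) :=
    mul_le_mul_of_nonneg_left h7 (sq_nonneg M)
  have h9 : M ^ 2 * (-(r ^ 2 - a ^ 2) ^ 2 / 4) = -(M * a ^ 2 - M * r ^ 2) ^ 2 / 4 := by ring
  rw [h9] at h8
  calc (I - p) * (r * a⁻¹ - 1) + (J - q) * (s * b⁻¹ - 1) =
      I * (r * a⁻¹ - 1) + J * (s * b⁻¹ - 1) - p * (r * a⁻¹) - q * (s * b⁻¹) + (p + q) := by ring
    _ = M ^ 2 * (a * r - a ^ 2 + (b * s - b ^ 2)) - p * (r * a⁻¹) - q * (s * b⁻¹) + (p + q) := by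
        rw [h1, h2]; ring
    _ ≤ _ := by linarith

end Ptwisex

theorem ptwise (m i p q : ℕ) (r s : ℝ) (hm : 0 < m) (hi : i ∈ I m) (hr : 0 ≤ r) (hs : 0 ≤ s)
    (hrs : r ^ 2 + s ^ 2 = 1) (hp : p ≤ m * i) (hq : q ≤ m * (m - i)) :
    kap m i * r ^ (m * i - p) * s ^ (m * (m - i) - q) ≤
      (2 * Real.exp 1) ^ (p + q) * Real.exp (-((i : ℝ) - m * r ^ 2) ^ 2 / 4) := by
  unfold I at hi
  rw [Finset.mem_filter] at hi
  obtain ⟨-, hi1, hi2⟩ := hi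
  have hm0 : (0 : ℝ) < m := by exact_mod_cast hm
  have him : i ≤ m := by omega
  have hi1' : (m : ℝ) ≤ 4 * i := by exact_mod_cast hi1
  have hi2' : 4 * (i : ℝ) ≤ 3 * m := by exact_mod_cast hi2
  obtain ⟨x, hx⟩ : ∃ x : ℝ, x = (i : ℝ) / m := ⟨_, rfl⟩
  have hxm : x * m = i := by rw [hx]; field_simp
  have hx1 : 1 / 4 ≤ x := by
    rw [hx, le_div_iff₀ hm0]
    linarith
  have hx2 : x ≤ 3 / 4 := by
    rw [hx, div_le_iff₀ hm0]
    linarith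
  obtain ⟨a, ha⟩ : ∃ a : ℝ, a = Real.sqrt x := ⟨_, rfl⟩
  obtain ⟨b, hb⟩ : ∃ b : ℝ, b = Real.sqrt (1 - x) := ⟨_, rfl⟩
  have ha2 : a ^ 2 = x := by rw [ha]; exact Real.sq_sqrt (by linarith)
  have hb2 : b ^ 2 = 1 - x := by rw [hb]; exact Real.sq_sqrt (by linarith)
  have ha0 : 1 / 2 ≤ a := by
    rw [ha]
    apply Real.le_sqrt_of_sq_le
    linarith
  have hb0 : 1 / 2 ≤ b := by
    rw [hb]
    apply Real.le_sqrt_of_sq_le
    linarith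
  have ha1 : a ≤ 1 := by nlinarith
  have hb1 : b ≤ 1 := by nlinarith
  have hapos : 0 < a := by linarith
  have hbpos : 0 < b := by linarith
  have hai : a⁻¹ ≤ 2 := by
    rw [inv_le_comm₀ hapos (by norm_num)]
    linarith
  have hbi : b⁻¹ ≤ 2 := by
    rw [inv_le_comm₀ hbpos (by norm_num)]
    linarith
  have hk : kap m i = a⁻¹ ^ (m * i) * b⁻¹ ^ (m * (m - i)) := by
    unfold kap
    rw [← hx, ← ha, ← hb]
  obtain ⟨P, hP⟩ : ∃ P, m * i = P + p := ⟨m * i - p, by omega⟩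
  obtain ⟨Q, hQ⟩ : ∃ Q, m * (m - i) = Q + q := ⟨m * (m - i) - q, by omega⟩
  have hPr : (P : ℝ) = (m : ℝ) ^ 2 * a ^ 2 - p := by
    have h1 : (m : ℝ) * i = P + p := by exact_mod_cast hP
    rw [ha2]
    have : (m : ℝ) ^ 2 * x = m * i := by rw [← hxm]; ring
    linarith
  have hQr : (Q : ℝ) = (m : ℝ) ^ 2 * b ^ 2 - q := by
    have h1 : (m : ℝ) * ((m - i : ℕ) : ℝ) = Q + q := by exact_mod_cast hQ
    rw [Nat.cast_sub him] at h1
    rw [hb2]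
    have : (m : ℝ) ^ 2 * (1 - x) = m * (m - i) := by rw [← hxm]; ring
    linarith
  rw [hk, hP, hQ, Nat.add_sub_cancel, Nat.add_sub_cancel]
  have h1 := Ptwisex.pow_le_exp (y := r * a⁻¹) (by positivity) P
  have h2 := Ptwisex.pow_le_exp (y := s * b⁻¹) (by positivity) Q
  have h3 : a⁻¹ ^ p ≤ 2 ^ p := pow_le_pow_left₀ (by positivity) hai p
  have h4 : b⁻¹ ^ q ≤ 2 ^ q := pow_le_pow_left₀ (by positivity) hbi q
  have hex := Ptwisex.expo (M := m) (p := p) (q := q) hapos hbpos ha1 hb1 hr hs hrs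
    (by rw [ha2, hb2]; ring) rfl rfl (Nat.cast_nonneg p) (Nat.cast_nonneg q)
  calc a⁻¹ ^ (P + p) * b⁻¹ ^ (Q + q) * r ^ P * s ^ Q =
      ((r * a⁻¹) ^ P * (s * b⁻¹) ^ Q) * (a⁻¹ ^ p * b⁻¹ ^ q) := by
        rw [pow_add, pow_add, mul_pow, mul_pow]; ring
    _ ≤ (Real.exp (P * (r * a⁻¹ - 1)) * Real.exp (Q * (s * b⁻¹ - 1))) * (2 ^ p * 2 ^ q) := by
        apply mul_le_mul _ _ (by positivity) (by positivity)
        · exact mul_le_mul h1 h2 (by positivity) (by positivity)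
        · exact mul_le_mul h3 h4 (by positivity) (by positivity)
    _ = Real.exp (P * (r * a⁻¹ - 1) + Q * (s * b⁻¹ - 1)) * 2 ^ (p + q) := by
        rw [Real.exp_add, pow_add]
    _ ≤ Real.exp ((p + q : ℝ) + -((m : ℝ) * a ^ 2 - m * r ^ 2) ^ 2 / 4) * 2 ^ (p + q) := by
        apply mul_le_mul_of_nonneg_right _ (by positivity)
        apply Real.exp_le_exp.2
        rw [hPr, hQr]
        exact hex
    _ = (2 * Real.exp 1) ^ (p + q) * Real.exp (-((i : ℝ) - m * r ^ 2) ^ 2 / 4) := by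
        have e1 : (m : ℝ) * a ^ 2 = i := by rw [ha2, ← hxm]; ring
        have e2 : Real.exp ((p : ℝ) + q) = Real.exp 1 ^ (p + q) := by
          rw [← Real.exp_nat_mul]
          push_cast
          rw [mul_one]
        rw [e1, Real.exp_add, e2, mul_pow]
        ring

end Pool.Agent.TH44.RP
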